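import Mathlib
import Pool.Agent.Q209.Conv.Pow

open Finset Filter Topology

namespace Pool.Agent.Results.MP_ee50b4_pr.PeresFails

noncomputable section

/-- The `t`-fold convolution power `μ^{*t}` of a function on `ℤ/n`: `μ^{*0}` is the point mass at
`0` and `μ^{*(t+1)}(y) = ∑_x μ^{*t}(x) μ(y - x)`. -/
def convPow {n : ℕ} [NeZero n] (μ : ZMod n → ℝ) : ℕ → ZMod n → ℝ
  | 0 => fun y => if y = 0 then 1 else 0
  | t + 1 => fun y => ∑ x, convPow μ t x * μ (y - x)

/-- Total variation distance of `μ^{*t}` to the uniform law on `ℤ/n`. -/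
def dTV {n : ℕ} [NeZero n] (μ : ZMod n → ℝ) (t : ℕ) : ℝ :=
  (1 / 2 : ℝ) * ∑ y, |convPow μ t y - 1 / (n : ℝ)|

/-- `T_mix(ε) = min {t : ‖μ^{*t} - π‖_TV ≤ ε}`. -/
def tmix {n : ℕ} [NeZero n] (μ : ZMod n → ℝ) (ε : ℝ) : ℕ :=
  sInf {t : ℕ | dTV μ t ≤ ε}

/-- The eigenvalue `μ̂(j) = ∑_x μ(x) e^{2π i j x / n}` of the convolution walk. -/
def fourier {n : ℕ} [NeZero n] (μ : ZMod n → ℝ) (j : ZMod n) : ℂ :=
  ∑ x, (μ x : ℂ) * Complex.exp (2 * Real.pi * Complex.I * ((j.val : ℂ) * (x.val : ℂ)) / (n : ℂ))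

/-- The spectral gap `γ = 1 - max_{j ≠ 0} |μ̂(j)|`. -/
def gap {n : ℕ} [NeZero n] (μ : ZMod n → ℝ) : ℝ :=
  1 - ⨆ j : {j : ZMod n // j ≠ 0}, ‖fourier μ j‖

/-- `T_rel = 1 / γ`. -/
def trel {n : ℕ} [NeZero n] (μ : ZMod n → ℝ) : ℝ := 1 / gap μ

/-- `μ` is a probability measure on `ℤ/n` whose support is contained in no coset `a + H` of a
proper subgroup `H` (the convolution walk is ergodic). -/
def IsErgodic {n : ℕ} [NeZero n] (μ : ZMod n → ℝ) : Prop :=
  (∀ x, 0 ≤ μ x) ∧ ∑ x, μ x = 1 ∧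
    ∀ (H : AddSubgroup (ZMod n)) (a : ZMod n), (∀ x, μ x ≠ 0 → x - a ∈ H) → H = ⊤

theorem convPow_eq {n : ℕ} [NeZero n] (μ : ZMod n → ℝ) (t : ℕ) (y : ZMod n) :
    convPow μ t y = ((Matrix.of fun x y : ZMod n => μ (y - x)) ^ t) 0 y := by
  induction t generalizing y with
  | zero =>
    simp only [convPow, pow_zero, Matrix.one_apply]
    congr 1
    rw [eq_iff_iff, eq_comm]
  | succ t ih =>
    rw [pow_succ, Matrix.mul_apply]
    simp only [convPow, Matrix.of_apply, ih]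

/-- There are ergodic convolution walks on cycles `ℤ/n_k`, `n_k → ∞`, for which
`T_rel / T_mix(1/2) → 0` although there is no total variation cutoff; the measures may moreover be
taken symmetric with `μ_k(0) ≥ 1/2` and constant on the nonzero points of their support (lazy simple
random walks on Cayley graphs). -/
theorem result :
    ∃ (N : ℕ → ℕ) (_ : ∀ k, NeZero (N k)) (μ : ∀ k, ZMod (N k) → ℝ),
      Tendsto N atTop atTop ∧
      (∀ k, IsErgodic (μ k)) ∧
      (∀ k x, μ k (-x) = μ k x) ∧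
      (∀ k, 1 / 2 ≤ μ k 0) ∧
      (∀ k x y, x ≠ 0 → y ≠ 0 → μ k x ≠ 0 → μ k y ≠ 0 → μ k x = μ k y) ∧
      Tendsto (fun k => trel (μ k) / (tmix (μ k) (1 / 2) : ℝ)) atTop (𝓝 0) ∧
      ¬ (∀ ε : ℝ, 0 < ε → ε < 1 / 2 →
        Tendsto (fun k => (tmix (μ k) ε : ℝ) / (tmix (μ k) (1 - ε) : ℝ)) atTop (𝓝 1)) := by
  choose N hN S hNn hneg hne hgen hfour h1 h2 h3 hpos using Pool.Agent.Q209.Conv.facts
  have hd : ∀ k t, dTV (Q209.Conv.lazyMu (S k)) t = (1 / 2 : ℝ) * ∑ y : ZMod (N k),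
      |((Matrix.of fun x y : ZMod (N k) => Q209.Conv.lazyMu (S k) (y - x)) ^ t) 0 y -
        1 / (N k : ℝ)| := by
    intro k t
    simp only [dTV, convPow_eq]
  have h1' : ∀ k, ∀ t ≤ k + 64, 1 / 2 < dTV (Q209.Conv.lazyMu (S k)) t := by
    intro k t ht; rw [hd]; exact h1 k t ht
  have h2' : ∀ k, dTV (Q209.Conv.lazyMu (S k)) (2 * ((k + 64) / 8) + 1) ≤ 1 - 1 / 2000 := by
    intro k; rw [hd]; exact h2 k
  have h3' : ∀ k ε, 0 < ε → ∃ t, dTV (Q209.Conv.lazyMu (S k)) t ≤ ε := by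
    intro k ε hε
    obtain ⟨t, ht⟩ := h3 k ε hε
    exact ⟨t, by rw [hd]; exact ht⟩
  have hmu0 : ∀ k, (1 / 2 : ℝ) ≤ Q209.Conv.lazyMu (S k) 0 := by
    intro k
    have hc : (0 : ℝ) < (S k).card := by exact_mod_cast (hne k).card_pos
    simp only [Q209.Conv.lazyMu, if_true]
    have : (0 : ℝ) < 1 / (2 * ((S k).card : ℝ)) := by positivity
    split_ifs <;> linarith
  refine ⟨N, hN, fun k => Q209.Conv.lazyMu (S k), ?_, ?_, ?_, hmu0, ?_, ?_, ?_⟩
  · refine tendsto_atTop_mono (fun k => ?_) tendsto_id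
    have := hNn k
    simp only [id]
    omega
  · intro k
    refine ⟨Q209.Conv.lazyMu_nonneg (S k), Q209.Conv.lazyMu_sum (S k) (hne k), ?_⟩
    intro H a ha
    have h0 : (0 : ZMod (N k)) - a ∈ H := ha 0 (by have := hmu0 k; intro hcon; linarith)
    have hsub : AddSubgroup.closure (S k : Set (ZMod (N k))) ≤ H := by
      rw [AddSubgroup.closure_le]
      intro x hx
      have hc : (0 : ℝ) < (S k).card := by exact_mod_cast (hne k).card_pos
      have hx0 : Q209.Conv.lazyMu (S k) x ≠ 0 := by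
        have hx' : x ∈ S k := hx
        simp only [Q209.Conv.lazyMu]
        rw [if_pos hx']
        have : (0 : ℝ) < 1 / (2 * ((S k).card : ℝ)) := by positivity
        split_ifs <;> linarith
      have h5 := ha x hx0
      have h6 := H.sub_mem h5 h0
      simpa using h6
    rw [hgen k] at hsub
    exact top_le_iff.mp hsub
  · exact fun k x => Q209.Conv.lazyMu_symm (S k) (hneg k) x
  · intro k x y hx hy hmx hmy
    simp only [Q209.Conv.lazyMu, if_neg hx, if_neg hy, zero_add] at hmx hmy ⊢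
    have h1 : x ∈ S k := by
      by_contra h
      exact hmx (if_neg h)
    have h2 : y ∈ S k := by
      by_contra h
      exact hmy (if_neg h)
    rw [if_pos h1, if_pos h2]
  · have hr : ∀ k, 0 < trel (Q209.Conv.lazyMu (S k)) ∧ trel (Q209.Conv.lazyMu (S k)) ≤ 8 := by
      intro k
      have h5 : ⨆ j : {j : ZMod (N k) // j ≠ 0}, ‖fourier (Q209.Conv.lazyMu (S k)) j‖ ≤
          7 / 8 := by
        apply Real.iSup_le _ (by norm_num)
        rintro ⟨j, hj⟩
        have := hfour k j hj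
        rw [fourier, Q209.Conv.four_real _ (Q209.Conv.lazyMu_symm (S k) (hneg k)),
          Complex.norm_real, Real.norm_eq_abs, abs_le]
        constructor
        · linarith [this.1]
        · linarith [this.2]
      have h6 : 0 < gap (Q209.Conv.lazyMu (S k)) := by rw [gap]; linarith
      refine ⟨one_div_pos.mpr h6, ?_⟩
      rw [trel, div_le_iff₀ h6, gap]
      linarith
    have ht : ∀ k : ℕ, ((k : ℝ) + 1) ≤ (tmix (Q209.Conv.lazyMu (S k)) (1 / 2) : ℝ) := by
      intro k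
      have := Helper394.sInf_gt (dTV (Q209.Conv.lazyMu (S k))) (k + 64) (1 / 2) le_rfl (h1' k)
        (h3' k _ (by norm_num))
      have h7 : k + 1 ≤ tmix (Q209.Conv.lazyMu (S k)) (1 / 2) := by
        rw [tmix]; omega
      exact_mod_cast h7
    have hlim : Tendsto (fun k : ℕ => (8 : ℝ) / ((k : ℝ) + 1)) atTop (𝓝 0) :=
      tendsto_const_div_atTop_nhds_zero_nat 8 |>.comp (tendsto_add_atTop_nat 1) |>.congr
        (fun k => by simp)
    refine squeeze_zero (fun k => ?_) (fun k => ?_) hlim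
    · exact div_nonneg (hr k).1.le (Nat.cast_nonneg _)
    · have hk : (0 : ℝ) < (k : ℝ) + 1 := by positivity
      exact div_le_div₀ (by norm_num) (hr k).2 hk (ht k)
  · intro hcut
    exact Helper394.no_cutoff_of (fun k => dTV (Q209.Conv.lazyMu (S k))) h1' h2' h3'
      (hcut (1 / 2000) (by norm_num) (by norm_num))

end

end Pool.Agent.Results.MP_ee50b4_pr.PeresFails
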